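import Pool.Agent.helper5.PR.SpecZ
import Pool.Agent.helper45.PR.N_FIN

/-!
# Project pr: (MP_a2a22c_al), module Z-NILU: rank one elements in representations of solvable groups
which are not virtually linear of degree `n - 1`
-/

set_option autoImplicit false

namespace Pool.Agent.PR

open Matrix Module

theorem Z_NILU_nonemb {k : ℕ} {P : Type} [Group P] (hP : NonEmbS k P) (H : Subgroup P)
    (hH : H.FiniteIndex) : NonEmbS k H := by
  obtain ⟨h1, h2, h3, h4⟩ := hP
  have hfg : Group.FG H := by
    have := h1
    exact Subgroup.fg_of_index_ne_zero H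
  have hsol : Group.IsSolvable H := by
    have := h2
    infer_instance
  refine ⟨hfg, hsol, ?_, ?_⟩
  · intro g hg k hk h5
    refine h3 (g : P) (fun h6 => hg (Subtype.ext h6)) k hk ?_
    have h6 := congrArg (fun x : H => (x : P)) h5
    exact h6
  · intro H' hH' E _ _ f hf
    have hfin : (H'.map H.subtype).FiniteIndex := by
      constructor
      have h5 := Subgroup.index_map_subtype H'
      rw [h5]
      exact mul_ne_zero hH'.index_ne_zero hH.index_ne_zero
    let e : H' ≃* H'.map H.subtype := H'.equivMapOfInjective H.subtype H.subtype_injective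
    refine h4 (H'.map H.subtype) hfin E (f.comp e.symm.toMonoidHom) ?_
    exact hf.comp e.symm.injective

theorem Z_NILU (hMAL : Z_MAL_stmt) (hTRV : Z_TRV_stmt) (hNILU : Y_NILU_stmt) : Z_NILU_stmt := by
  intro n hn F _ _ P _ hP ρ hρ hdet
  let K := AlgebraicClosure F
  have hK0 : CharZero K := charZero_of_injective_algebraMap (algebraMap F K).injective
  have hdim : finrank K (Fin n → K) = n := Module.finrank_fin_fun K
  have hinj := N_FIN_inj (K := K) ρ hρ
  set ρ' : P →* Module.End K (Fin n → K) := N_FIN_ext K ρ with hρ'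
  obtain ⟨H, hfi, htri⟩ := hMAL K (Fin n → K) P hP.2.1 ρ'
  have hHN : NonEmbS (n - 1) H := Z_NILU_nonemb hP H hfi
  have hinjH : Function.Injective (ρ'.comp H.subtype) := hinj.comp H.subtype_injective
  have hdet' : ∀ g : P, LinearMap.det (ρ' g) = 1 := by
    intro g
    change LinearMap.det (Matrix.toLin' ((ρ g).map (algebraMap F K))) = 1
    rw [LinearMap.det_toLin', ← RingHom.mapMatrix_apply, ← RingHom.map_det, hdet, map_one]
  have h2 : NonEmbS (finrank K (Fin n → K) - 1) H := by rw [hdim]; exact hHN
  rcases hTRV K (Fin n → K) H (by rw [hdim]; exact hn) h2 (ρ'.comp H.subtype) htri hinjH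
    (fun g => hdet' g) with hnil | ⟨t, u, h3, h4, h5, h6⟩
  · have hHE : NonEmb (n - 1) H := ⟨hHN.1, hnil, hHN.2.2.1, hHN.2.2.2⟩
    obtain ⟨t, u, h3, h4, h5, h6⟩ := hNILU n hn F H hHE (ρ.comp H.subtype)
      (hρ.comp H.subtype_injective) (fun g => hdet g)
    refine ⟨(t : P), (u : P), ?_, h4, ?_, h6⟩
    · have h7 := congrArg (fun x : H => (x : P)) h3
      exact h7
    · intro k hk m h7
      refine h5 k hk m (Subtype.ext ?_)
      rw [Subgroup.coe_pow, Subgroup.coe_zpow]
      exact h7
  · refine ⟨(t : P), (u : P), ?_, ?_, ?_, ?_⟩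
    · have h7 := congrArg (fun x : H => (x : P)) h3
      exact h7
    · rw [← N_FIN_rank (K := K)]
      exact h4
    · intro k hk m h7
      refine h5 k hk m (Subtype.ext ?_)
      rw [Subgroup.coe_pow, Subgroup.coe_zpow]
      exact h7
    · have h7 : (N_FIN_ext K ρ (u : P) - 1) ^ n = 0 := by
        rw [hdim] at h6
        exact h6
      rw [N_FIN_sub] at h7
      have h8 : Matrix.toLin' (((ρ u - 1) ^ n).map (algebraMap F K)) = 0 := by
        have h9 : ((ρ u - 1) ^ n).map (algebraMap F K) = ((ρ u - 1).map (algebraMap F K)) ^ n := by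
          rw [← RingHom.mapMatrix_apply, ← RingHom.mapMatrix_apply, map_pow]
        rw [h9]
        have h10 : ∀ A : Matrix (Fin n) (Fin n) K, Matrix.toLin' A =
          (Matrix.toLinAlgEquiv' : Matrix (Fin n) (Fin n) K ≃ₐ[K] _) A := fun _ => rfl
        rw [h10, map_pow]
        rw [h10] at h7
        exact h7
      have h11 : ((ρ u - 1) ^ n).map (algebraMap F K) = 0 := by
        apply Matrix.toLin'.injective
        rw [h8, map_zero]
      ext i j
      have h12 := congrFun (congrFun h11 i) j
      rw [Matrix.map_apply, Matrix.zero_apply] at h12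
      rw [Matrix.zero_apply]
      exact (map_eq_zero (algebraMap F K)).mp h12

end Pool.Agent.PR
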